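import Pool.Agent.Y358.IN.Ind
import Pool.Agent.TH497.TW.Std
import Pool.Agent.Y335.FL.Iso
import Pool.Agent.Y335.FL.Ex17
import Pool.Agent.Y335.FL.Ahl
import Pool.Agent.Y335.FL.Order
import Pool.Agent.Y335.FL.Tw

/-!
# Nowhere-zero 5-flows and tree decompositions whose bags are not sparse

The class of the graphs which have a tree decomposition such that no bag contains `19` vertices
which induce a graph of girth at least twelve is closed under contractions.
-/

set_option autoImplicit false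
set_option linter.unusedSectionVars false

namespace Pool.Agent.R129.Tia

open Finset Pool.Agent.TH676.Z Pool.Agent.Y335.FL Pool.Agent.Y358.IN Pool.Agent.TH497.TW

variable {V E : Type} [Fintype V] [DecidableEq V] [Fintype E] [DecidableEq E]

/-- `S` contains the vertices of a circuit with `2, ..., 11` edges -/
def Sh (src dst : E → V) (S : Finset V) : Prop :=
  ∃ k, k ≤ 9 ∧ ∃ (v : Fin (k + 2) → V) (ed : Fin (k + 2) → E), Function.Injective v ∧
    Function.Injective ed ∧ ∀ i, v i ∈ S ∧ Jn src dst (ed i) (v i) (v (i + 1))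

/-- every subset of `B` without short circuits has at most 18 elements -/
def Sp (src dst : E → V) (B : Finset V) : Prop :=
  ∀ S ⊆ B, ¬ Sh src dst S → S.card ≤ 18

/-- a rooted tree decomposition whose bags satisfy `Sp` -/
def HasT (src dst : E → V) : Prop :=
  ∃ (n : ℕ) (par : ℕ → ℕ) (B : ℕ → Finset V), (∀ i, 0 < i → i < n → par i < i) ∧
    (∀ e, ∃ i, i < n ∧ src e ∈ B i ∧ dst e ∈ B i) ∧
    (∀ i j v, j < i → i < n → v ∈ B i → v ∈ B j → v ∈ B (par i)) ∧
    ∀ i, i < n → Sp src dst (B i)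

theorem jn_ctr {src dst : E → V} {u v x y : V} {e : E} (h : Jn src dst e x y) :
    Jn (ctr u v ∘ src) (ctr u v ∘ dst) e (ctr u v x) (ctr u v y) := by
  rcases h with ⟨h1, h2⟩ | ⟨h1, h2⟩
  · exact Or.inl ⟨congrArg _ h1, congrArg _ h2⟩
  · exact Or.inr ⟨congrArg _ h1, congrArg _ h2⟩

theorem Sp.ctr {src dst : E → V} {B : Finset V} (h : Sp src dst B) (u v : V) :
    Sp (ctr u v ∘ src) (ctr u v ∘ dst) (B.image (ctr u v)) := by
  intro S hS hG
  have hex : ∀ x, ∃ y, x ∈ S → y ∈ B ∧ Pool.Agent.TH676.Z.ctr u v y = x := by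
    intro x
    by_cases hx : x ∈ S
    · obtain ⟨y, hy, hyx⟩ := mem_image.1 (hS hx)
      exact ⟨y, fun _ => ⟨hy, hyx⟩⟩
    · exact ⟨x, fun h => absurd h hx⟩
  choose σ hσ using hex
  have hinj : Set.InjOn σ S := by
    intro a ha b hb hab
    rw [← (hσ a ha).2, ← (hσ b hb).2, hab]
  have h1 := h (S.image σ) (by
    intro y hy
    obtain ⟨x, hx, rfl⟩ := mem_image.1 hy
    exact (hσ x hx).1) (by
    rintro ⟨k, hk, w, ed, hw, hed, hA⟩
    have hmem : ∀ i, ∃ x ∈ S, σ x = w i := fun i => mem_image.1 (hA i).1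
    choose x hx hxw using hmem
    refine hG ⟨k, hk, x, ed, ?_, hed, fun i => ⟨hx i, ?_⟩⟩
    · intro i j hij
      apply hw
      rw [← hxw i, ← hxw j, hij]
    · have h2 : x i = Pool.Agent.TH676.Z.ctr u v (w i) := by
        rw [← hxw i, (hσ _ (hx i)).2]
      have h3 : x (i + 1) = Pool.Agent.TH676.Z.ctr u v (w (i + 1)) := by
        rw [← hxw (i + 1), (hσ _ (hx (i + 1))).2]
      rw [h2, h3]
      exact jn_ctr (hA i).2)
  rwa [card_image_of_injOn hinj] at h1

theorem ccT : CC (V := V) (E := E) HasT := by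
  intro src dst e h hne
  obtain ⟨n, par, B, h0, h1, h2, h4⟩ := h
  refine ⟨n, par, fun i => (B i).image (ctr (src e) (dst e)), h0, ?_, ?_,
    fun i hi => (h4 i hi).ctr _ _⟩
  · intro d
    obtain ⟨i, hin, hi1, hi2⟩ := h1 d
    exact ⟨i, hin, mem_image_of_mem _ hi1, mem_image_of_mem _ hi2⟩
  · have hm : ∀ i v, v ∈ (B i).image (ctr (src e) (dst e)) ↔
        (v ∈ B i ∧ v ≠ dst e) ∨ (v = src e ∧ dst e ∈ B i) := by
      intro i v
      rw [mem_image]
      constructor
      · rintro ⟨y, hy, hyv⟩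
        by_cases h : y = dst e
        · rw [h, ctr_v] at hyv
          exact Or.inr ⟨hyv.symm, h ▸ hy⟩
        · rw [ctr_of_ne h] at hyv
          exact Or.inl ⟨hyv ▸ hy, hyv ▸ h⟩
      · rintro (⟨h5, h6⟩ | ⟨h5, h6⟩)
        · exact ⟨v, h5, ctr_of_ne h6⟩
        · exact ⟨dst e, h6, by rw [ctr_v, h5]⟩
    intro i j v hji hi hvi hvj
    change v ∈ (B i).image (ctr (src e) (dst e)) at hvi
    change v ∈ (B j).image (ctr (src e) (dst e)) at hvj
    change v ∈ (B (par i)).image (ctr (src e) (dst e))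
    rw [hm] at hvi hvj ⊢
    obtain ⟨b, hbn, hb1, hb2⟩ := h1 e
    rcases hvi with ⟨h5, h6⟩ | ⟨h5, h6⟩ <;> rcases hvj with ⟨h7, h8⟩ | ⟨h7, h8⟩
    · exact Or.inl ⟨h2 i j v hji hi h5 h7, h6⟩
    · rw [h7] at h5
      rcases two_conn h0 h2 ⟨b, hbn, hb1, hb2⟩ hji hi h5 h8 with h | h
      · rw [h7]; exact Or.inl ⟨h, hne⟩
      · exact Or.inr ⟨h7, h⟩
    · rw [h5] at h7
      rcases two_conn h0 h2 ⟨b, hbn, hb2, hb1⟩ hji hi h6 h7 with h | h
      · exact Or.inr ⟨h5, h⟩
      · rw [h5]; exact Or.inl ⟨h, hne⟩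
    · exact Or.inr ⟨h5, h2 i j _ hji hi h6 h8⟩

/-- **Main step.** -/
theorem flow_of_HasT (hc : St_contract) {src dst : E → V} (hcl : HasT src dst)
    (hbr : Br src dst ∅ ∅) : FlowOn src dst ∅ ∅ := by
  classical
  by_contra hn
  obtain ⟨s, d, hs, hM⟩ := exists_minC ccT src dst hcl hbr hn
  have h3 := threeC hc hM
  have hgi := girthC hc hM
  have hTD : HasTD 18 s d := by
    obtain ⟨n, par, B, h0, h1, h2, h4⟩ := hs
    exact ⟨n, par, B, h0, h1, h2, fun i hi => h4 i hi (B i) (Subset.refl _)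
      (fun ⟨k, hk, v, ed, hv, hed, hA⟩ => no_circ hc hM k hk v ed hv hed fun i => (hA i).2)⟩
  obtain ⟨In, hB⟩ := bags hTD
  have hno := tw (iso (ex17 ahl)) moore V (Adj s d) In
    (fun a b h => ⟨h.1.symm, h.2.imp fun e he => he.symm⟩) (fun a h => h.1 rfl) hgi h3 hB
  refine hM.nf (flow_of_loops fun e => ?_)
  by_contra he
  exact hno (s e) (d e) ⟨he, e, Or.inl ⟨rfl, rfl⟩⟩

/-- from the usual definition of tree decompositions -/
theorem HasT.of_tree {ι : Type} [Fintype ι] {T : SimpleGraph ι} {C : ι → Finset V}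
    {src dst : E → V} (hT : T.IsTree) (hC : PathCond T C)
    (he : ∀ e, ∃ i, src e ∈ C i ∧ dst e ∈ C i) (hw : ∀ i, Sp src dst (C i)) :
    HasT src dst := by
  classical
  obtain ⟨m, hm⟩ : ∃ m, Fintype.card ι = m + 1 := by
    have := hT.connected.nonempty
    exact ⟨Fintype.card ι - 1, by have := Fintype.card_pos (α := ι); omega⟩
  obtain ⟨num, par, h1, h2, h3, h4⟩ := numbering m ι T C hT hC hm
  have hsurj : ∀ a, a < m + 1 → ∃ i, num i = a := by
    intro a ha
    have hb : Function.Bijective (fun i => (⟨num i, h2 i⟩ : Fin (m + 1))) := by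
      rw [Fintype.bijective_iff_injective_and_card]
      refine ⟨fun i j hij => h1 (by simpa using hij), by rw [hm, Fintype.card_fin]⟩
    obtain ⟨i, hi⟩ := hb.2 ⟨a, ha⟩
    exact ⟨i, by simpa using congrArg Fin.val hi⟩
  have := hT.connected.nonempty
  have hinv : ∀ i, Function.invFun num (num i) = i := Function.leftInverse_invFun h1
  refine ⟨m + 1, par, fun a => C (Function.invFun num a), h3, ?_, ?_, fun a _ => hw _⟩
  · intro e
    obtain ⟨i, hi1, hi2⟩ := he e
    refine ⟨num i, h2 i, ?_⟩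
    change src e ∈ C (Function.invFun num (num i)) ∧ dst e ∈ C (Function.invFun num (num i))
    rw [hinv i]
    exact ⟨hi1, hi2⟩
  · intro a b v hba ha hva hvb
    obtain ⟨i, rfl⟩ := hsurj a ha
    obtain ⟨j, rfl⟩ := hsurj b (by omega)
    change v ∈ C (Function.invFun num (num i)) at hva
    change v ∈ C (Function.invFun num (num j)) at hvb
    change v ∈ C (Function.invFun num (par (num i)))
    rw [hinv] at hva hvb
    obtain ⟨k, hk, hk2⟩ := h4 i j v hba hva hvb
    rw [← hk, hinv]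
    exact hk2

end Pool.Agent.R129.Tia
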