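import Pool.Agent.R129.Ball.Cls

/-!
# Independent sets in graphs of girth at least twelve
-/

set_option autoImplicit false
set_option linter.unusedSectionVars false

namespace Pool.Agent.R129.Tia

open Finset Pool.Agent.Y335.FL Pool.Agent.R129.Ball

section levels

variable {V : Type} [Fintype V] [DecidableEq V] {G : SimpleGraph V}

theorem Lv_one (a : V) {x : V} : x ∈ Lv G 1 a ↔ G.Adj a x := by
  rw [mem_Lv]
  constructor
  · rintro ⟨p, hp, hl⟩
    have h := p.adj_of_length_eq_one hl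
    exact h
  · intro h
    exact ⟨SimpleGraph.Walk.cons h SimpleGraph.Walk.nil, Ord.edge_path h, rfl⟩

/-- a path of length at most four can be extended -/
theorem extend (h12 : ∀ (w : V) (c : G.Walk w w), c.IsCycle → 12 ≤ c.length)
    (h2 : ∀ x y, G.Adj x y → ∃ a b, G.Adj x a ∧ G.Adj x b ∧ a ≠ b) {a v : V} {p : G.Walk a v}
    (hp : p.IsPath) (h1 : 1 ≤ p.length) (h10 : p.length ≤ 10) :
    ∃ z, G.Adj v z ∧ z ∉ p.support := by
  have hn : ¬ p.Nil := by
    intro h
    have h := SimpleGraph.Walk.length_eq_zero_iff.2 h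
    omega
  have hpen := (p.adj_penultimate hn).symm
  obtain ⟨b, c, hb, hc, hbc⟩ := h2 v _ hpen
  have key : ∀ w, G.Adj v w → w ≠ p.penultimate → w ∉ p.support := by
    intro w hw hne hws
    have e := Ord.uniq h12 (hp.dropUntil hws) (Ord.edge_path hw.symm) (by
      have h5 := p.length_dropUntil_le_length hws
      simp only [SimpleGraph.Walk.length_cons, SimpleGraph.Walk.length_nil]
      omega)
    have e2 : p = (p.takeUntil w hws).concat hw.symm := by
      rw [SimpleGraph.Walk.concat_eq_append, ← e, SimpleGraph.Walk.take_spec]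
    apply hne
    rw [e2, SimpleGraph.Walk.penultimate_concat]
  by_cases h : b = p.penultimate
  · exact ⟨c, hc, key c hc (fun h' => hbc (h.trans h'.symm))⟩
  · exact ⟨b, hb, key b hb h⟩

theorem Lv_mono (h12 : ∀ (w : V) (c : G.Walk w w), c.IsCycle → 12 ≤ c.length)
    (h2 : ∀ x y, G.Adj x y → ∃ a b, G.Adj x a ∧ G.Adj x b ∧ a ≠ b) {a : V} {j : ℕ} (h1 : 1 ≤ j)
    (h4 : j ≤ 4) : (Lv G j a).card ≤ (Lv G (j + 1) a).card := by
  classical
  have hex : ∀ v, ∃ z, v ∈ Lv G j a → ∃ p : G.Walk a v, p.IsPath ∧ p.length = j ∧ G.Adj v z ∧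
      z ∉ p.support := by
    intro v
    by_cases hv : v ∈ Lv G j a
    · obtain ⟨p, hp, hl⟩ := mem_Lv.1 hv
      obtain ⟨z, hz, hzp⟩ := extend h12 h2 hp (by omega) (by omega)
      exact ⟨z, fun _ => ⟨p, hp, hl, hz, hzp⟩⟩
    · exact ⟨a, fun h => absurd h hv⟩
  choose f hf using hex
  refine card_le_card_of_injOn f ?_ ?_
  · intro v hv
    obtain ⟨p, hp, hl, hz, hzp⟩ := hf v hv
    refine mem_Lv.2 ⟨p.concat hz, hp.concat hzp hz, ?_⟩
    rw [SimpleGraph.Walk.length_concat, hl]
  · intro v hv w hw hvw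
    obtain ⟨p, hp, hl, hz, hzp⟩ := hf v hv
    obtain ⟨q, hq, hl', hz', hzq⟩ := hf w hw
    rw [← hvw] at hz' hzq
    have e := Ord.uniq h12 (hp.concat hzp hz) (hq.concat hzq hz') (by
      rw [SimpleGraph.Walk.length_concat, SimpleGraph.Walk.length_concat]
      omega)
    have e2 := congrArg SimpleGraph.Walk.penultimate e
    rwa [SimpleGraph.Walk.penultimate_concat, SimpleGraph.Walk.penultimate_concat] at e2

theorem Lv_adj (h12 : ∀ (w : V) (c : G.Walk w w), c.IsCycle → 12 ≤ c.length) {a u v : V}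
    {i j : ℕ} (hi : i ≤ 5) (hj : j ≤ 5) (hu : u ∈ Lv G i a) (hv : v ∈ Lv G j a) (h : G.Adj u v) :
    j = i + 1 ∨ i = j + 1 := by
  classical
  obtain ⟨p, hp, hl⟩ := mem_Lv.1 hu
  obtain ⟨q, hq, hl'⟩ := mem_Lv.1 hv
  by_cases hvp : v ∈ p.support
  · right
    have h5 := p.length_dropUntil_le_length hvp
    have h6 : (p.takeUntil v hvp).length + (p.dropUntil v hvp).length = p.length := by
      rw [← SimpleGraph.Walk.length_append, SimpleGraph.Walk.take_spec]
    have e1 := Ord.uniq h12 (hp.dropUntil hvp) (Ord.edge_path h.symm) (by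
      simp only [SimpleGraph.Walk.length_cons, SimpleGraph.Walk.length_nil]
      omega)
    have e2 := Ord.uniq h12 (hp.takeUntil hvp) hq (by omega)
    have e3 := congrArg SimpleGraph.Walk.length e1
    have e4 := congrArg SimpleGraph.Walk.length e2
    simp only [SimpleGraph.Walk.length_cons, SimpleGraph.Walk.length_nil] at e3
    omega
  · left
    have e := Ord.uniq h12 (hp.concat hvp h) hq (by
      rw [SimpleGraph.Walk.length_concat]
      omega)
    have e2 := congrArg SimpleGraph.Walk.length e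
    rw [SimpleGraph.Walk.length_concat] at e2
    omega

end levels

section sets

variable {V : Type} [Fintype V] [DecidableEq V] (G : SimpleGraph V)

/-- the graph on `S` -/
def sub (S : Finset V) : SimpleGraph V where
  Adj a b := G.Adj a b ∧ a ∈ S ∧ b ∈ S
  symm := ⟨fun _ _ h => ⟨h.1.symm, h.2.2, h.2.1⟩⟩
  loopless := ⟨fun a h => G.loopless.irrefl a h.1⟩

variable {G}

theorem sub12 (h12 : ∀ (w : V) (c : G.Walk w w), c.IsCycle → 12 ≤ c.length) (S : Finset V) :
    ∀ (w : V) (c : (sub G S).Walk w w), c.IsCycle → 12 ≤ c.length := by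
  intro w c hc
  have hle : sub G S ≤ G := fun a b h => h.1
  have h1 := h12 w (c.mapLe hle) (hc.mapLe hle)
  rwa [SimpleGraph.Walk.length_map] at h1

theorem Lv_sub {S : Finset V} {a v : V} {j : ℕ} (hj : 1 ≤ j) (hv : v ∈ Lv (sub G S) j a) :
    v ∈ S := by
  obtain ⟨p, hp, hl⟩ := mem_Lv.1 hv
  have hn : ¬ p.Nil := by
    intro h
    have h := SimpleGraph.Walk.length_eq_zero_iff.2 h
    omega
  exact (p.adj_penultimate hn).2.2

/-- the neighbours of `v` in `S` -/
noncomputable def nb (G : SimpleGraph V) (S : Finset V) (v : V) : Finset V := by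
  classical exact S.filter (fun w => G.Adj v w)

theorem mem_nb {S : Finset V} {v w : V} : w ∈ nb G S v ↔ w ∈ S ∧ G.Adj v w := by
  classical
  unfold nb
  rw [mem_filter]

theorem two_sub {S : Finset V} (h : ∀ v ∈ S, 2 ≤ (nb G S v).card) :
    ∀ x y, (sub G S).Adj x y → ∃ a b, (sub G S).Adj x a ∧ (sub G S).Adj x b ∧ a ≠ b := by
  intro x y hxy
  obtain ⟨a, ha, b, hb, hab⟩ := one_lt_card.1 (h x hxy.2.1)
  rw [mem_nb] at ha hb
  exact ⟨a, b, ⟨ha.2, hxy.2.1, ha.1⟩, ⟨hb.2, hxy.2.1, hb.1⟩, hab⟩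

theorem Lv_one_sub {S : Finset V} {v : V} (hv : v ∈ S) : Lv (sub G S) 1 v = nb G S v := by
  ext w
  rw [Lv_one, mem_nb]
  exact ⟨fun h => ⟨h.2.2, h.1⟩, fun h => ⟨h.2, hv, h.1⟩⟩

theorem levels (h12 : ∀ (w : V) (c : G.Walk w w), c.IsCycle → 12 ≤ c.length) {S : Finset V}
    (h : ∀ v ∈ S, 2 ≤ (nb G S v).card) {x : V} (hx : x ∈ S) :
    ∀ j, 1 ≤ j → j ≤ 5 → (nb G S x).card ≤ (Lv (sub G S) j x).card := by
  intro j hj
  induction j, hj using Nat.le_induction with
  | base =>
    intro _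
    rw [Lv_one_sub hx]
  | succ j hj ih =>
    intro h5
    exact (ih (by omega)).trans (Lv_mono (sub12 h12 S) (two_sub h) hj (by omega))

theorem ten (h12 : ∀ (w : V) (c : G.Walk w w), c.IsCycle → 12 ≤ c.length) {S : Finset V}
    (h : ∀ v ∈ S, 2 ≤ (nb G S v).card) (hS : S.Nonempty) : 10 ≤ S.card := by
  classical
  obtain ⟨x, hx⟩ := hS
  have h1 : (Icc 1 5).biUnion (fun j => Lv (sub G S) j x) ⊆ S := by
    intro v hv
    obtain ⟨j, hj, hv⟩ := mem_biUnion.1 hv
    exact Lv_sub (mem_Icc.1 hj).1 hv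
  refine le_trans ?_ (card_le_card h1)
  rw [card_biUnion]
  · calc 10 = ∑ j ∈ Icc 1 5, 2 := by decide
      _ ≤ _ := sum_le_sum fun j hj => (h x hx).trans
        (levels h12 h hx j (mem_Icc.1 hj).1 (mem_Icc.1 hj).2)
  · intro i hi j hj hij
    have h2 := mem_Icc.1 (mem_coe.1 hi)
    have h3 := mem_Icc.1 (mem_coe.1 hj)
    exact Lv_disj (sub12 h12 S) hij (by omega)

/-- `I` is independent -/
def Ip (G : SimpleGraph V) (I : Finset V) : Prop := ∀ a ∈ I, ∀ b ∈ I, ¬ G.Adj a b

theorem nine (h12 : ∀ (w : V) (c : G.Walk w w), c.IsCycle → 12 ≤ c.length) {S : Finset V}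
    (h : ∀ v ∈ S, 2 ≤ (nb G S v).card) {x : V} (hx : x ∈ S) (h3 : 3 ≤ (nb G S x).card) :
    ∃ I ⊆ S, Ip G I ∧ 9 ≤ I.card := by
  classical
  have hm : ∀ j ∈ ({1, 3, 5} : Finset ℕ), 1 ≤ j ∧ j ≤ 5 := by decide
  have h1 : ({1, 3, 5} : Finset ℕ).biUnion (fun j => Lv (sub G S) j x) ⊆ S := by
    intro v hv
    obtain ⟨j, hj, hv⟩ := mem_biUnion.1 hv
    exact Lv_sub (hm j hj).1 hv
  refine ⟨_, h1, ?_, ?_⟩
  · intro a ha b hb hab
    have ha' := h1 ha
    have hb' := h1 hb
    obtain ⟨i, hi, ha⟩ := mem_biUnion.1 ha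
    obtain ⟨j, hj, hb⟩ := mem_biUnion.1 hb
    have h5 := Lv_adj (sub12 h12 S) (hm i hi).2 (hm j hj).2 ha hb ⟨hab, ha', hb'⟩
    simp only [mem_insert, mem_singleton] at hi hj
    omega
  · rw [card_biUnion]
    · calc 9 = ∑ j ∈ ({1, 3, 5} : Finset ℕ), 3 := by decide
        _ ≤ _ := sum_le_sum fun j hj => h3.trans (levels h12 h hx j (hm j hj).1 (hm j hj).2)
    · intro i hi j hj hij
      have h2 := hm i (mem_coe.1 hi)
      have h3 := hm j (mem_coe.1 hj)
      exact Lv_disj (sub12 h12 S) hij (by omega)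

/-- the step: a vertex with at most one neighbour -/
theorem leaf {S : Finset V} {v : V} (hv : v ∈ S) (h : (nb G S v).card ≤ 1) :
    ∃ S' ⊆ S, S'.card < S.card ∧ S.card ≤ S'.card + 2 ∧
      ∀ I ⊆ S', Ip G I → v ∉ I ∧ Ip G (insert v I) := by
  classical
  refine ⟨(S \ nb G S v).erase v, (erase_subset _ _).trans sdiff_subset, ?_, ?_, ?_⟩
  · refine card_lt_card ⟨(erase_subset _ _).trans sdiff_subset, fun h1 => ?_⟩
    exact notMem_erase v _ (h1 hv)
  · have h1 := le_card_sdiff (nb G S v) S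
    have h2 := pred_card_le_card_erase (s := S \ nb G S v) (a := v)
    omega
  · intro I hI hIp
    have hvI : v ∉ I := fun h1 => notMem_erase v _ (hI h1)
    have hno : ∀ b ∈ I, ¬ G.Adj v b := by
      intro b hb hab
      have h1 := mem_of_mem_erase (hI hb)
      rw [mem_sdiff] at h1
      exact h1.2 (mem_nb.2 ⟨h1.1, hab⟩)
    refine ⟨hvI, ?_⟩
    intro a ha b hb hab
    rcases mem_insert.1 ha with rfl | ha' <;> rcases mem_insert.1 hb with rfl | hb'
    · exact G.loopless.irrefl _ hab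
    · exact hno b hb' hab
    · exact hno a ha' hab.symm
    · exact hIp a ha' b hb' hab

theorem forest : ∀ (n : ℕ) (S : Finset V), S.card = n →
    (∀ C ⊆ S, C.Nonempty → ∃ v ∈ C, (nb G C v).card ≤ 1) →
    ∃ I ⊆ S, Ip G I ∧ S.card ≤ 2 * I.card := by
  intro n
  induction n using Nat.strong_induction_on with
  | _ n ih =>
    intro S hn h
    rcases S.eq_empty_or_nonempty with rfl | hne
    · exact ⟨∅, Subset.refl _, fun a ha => absurd ha (notMem_empty a), by simp⟩
    · obtain ⟨v, hv, h1⟩ := h S (Subset.refl _) hne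
      obtain ⟨S', hS', hlt, hle, hI⟩ := leaf hv h1
      obtain ⟨I, hIS, hIp, hIc⟩ := ih S'.card (by omega) S' rfl
        (fun C hC => h C (hC.trans hS'))
      obtain ⟨h2, h3⟩ := hI I hIS hIp
      refine ⟨insert v I, insert_subset hv (hIS.trans hS'), h3, ?_⟩
      rw [card_insert_of_notMem h2]
      omega

theorem indep (h12 : ∀ (w : V) (c : G.Walk w w), c.IsCycle → 12 ≤ c.length) :
    ∀ (n : ℕ) (S : Finset V), S.card = n → n ≤ 19 →
    ∃ I ⊆ S, Ip G I ∧ (S.card ≤ 2 * I.card + 1 ∨ 9 ≤ I.card) := by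
  intro n
  induction n using Nat.strong_induction_on with
  | _ n ih =>
    intro S hn h19
    by_cases hleaf : ∃ v ∈ S, (nb G S v).card ≤ 1
    · obtain ⟨v, hv, h1⟩ := hleaf
      obtain ⟨S', hS', hlt, hle, hI⟩ := leaf hv h1
      obtain ⟨I, hIS, hIp, hIc⟩ := ih S'.card (by omega) S' rfl (by omega)
      obtain ⟨h2, h3⟩ := hI I hIS hIp
      refine ⟨insert v I, insert_subset hv (hIS.trans hS'), h3, ?_⟩
      rw [card_insert_of_notMem h2]
      omega
    push Not at hleaf
    rcases S.eq_empty_or_nonempty with rfl | hne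
    · exact ⟨∅, Subset.refl _, fun a ha => absurd ha (notMem_empty a), by simp⟩
    by_cases h3 : ∃ x ∈ S, 3 ≤ (nb G S x).card
    · obtain ⟨x, hx, h3⟩ := h3
      obtain ⟨I, h4, h5, h6⟩ := nine h12 (fun v hv => by have := hleaf v hv; omega) hx h3
      exact ⟨I, h4, h5, Or.inr h6⟩
    push Not at h3
    have heq : ∀ v ∈ S, (nb G S v).card = 2 := by
      intro v hv
      have h4 := hleaf v hv
      have h5 := h3 v hv
      omega
    obtain ⟨x, hx⟩ := hne
    obtain ⟨I, hI1, hI2, hI3⟩ := forest (G := G) (S.erase x).card (S.erase x) rfl (by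
      intro C hC hCne
      by_contra hcon
      push Not at hcon
      have hCS : C ⊆ S := hC.trans (erase_subset _ _)
      -- the neighbours in `S` of a vertex in `C` are in `C`
      have hcl : ∀ v ∈ C, ∀ w ∈ S, G.Adj v w → w ∈ C := by
        intro v hv w hw hvw
        have h4 : nb G C v ⊆ nb G S v := by
          intro z hz
          rw [mem_nb] at hz ⊢
          exact ⟨hCS hz.1, hz.2⟩
        have h5 := eq_of_subset_of_card_le h4 (by
          have h6 := hcon v hv
          have h7 := heq v (hCS hv)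
          omega)
        have h8 : w ∈ nb G S v := mem_nb.2 ⟨hw, hvw⟩
        rw [← h5, mem_nb] at h8
        exact h8.1
      have h10 := ten h12 (S := C) (fun v hv => by have := hcon v hv; omega) hCne
      have h11 := ten h12 (S := S \ C) (fun v hv => by
        rw [mem_sdiff] at hv
        have h4 : nb G S v ⊆ nb G (S \ C) v := by
          intro z hz
          rw [mem_nb] at hz ⊢
          refine ⟨mem_sdiff.2 ⟨hz.1, fun hzC => hv.2 (hcl z hzC v hv.1 hz.2.symm)⟩, hz.2⟩
        have h5 := card_le_card h4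
        have h6 := heq v hv.1
        omega) ⟨x, mem_sdiff.2 ⟨hx, fun hxC => notMem_erase x S (hC hxC)⟩⟩
      have h12' := card_sdiff_add_card_eq_card hCS
      omega)
    refine ⟨I, hI1.trans (erase_subset _ _), hI2, Or.inl ?_⟩
    rw [card_erase_of_mem hx] at hI3
    omega

end sets

end Pool.Agent.R129.Tia
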