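import Pool.Agent.R129.Tia.Ind

/-!
# Twenty vertices of a graph of girth at least twelve include ten independent ones
-/

set_option autoImplicit false
set_option linter.unusedSectionVars false

namespace Pool.Agent.R129.Tia

open Finset Pool.Agent.Y335.FL Pool.Agent.R129.Ball

variable {V : Type} [Fintype V] [DecidableEq V] {G : SimpleGraph V}

theorem eleven (h12 : ∀ (w : V) (c : G.Walk w w), c.IsCycle → 12 ≤ c.length) {S : Finset V}
    (h : ∀ v ∈ S, 2 ≤ (nb G S v).card) (hS : S.Nonempty) : 11 ≤ S.card := by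
  classical
  obtain ⟨x, hx⟩ := hS
  have h1 : (Icc 0 5).biUnion (fun j => Lv (sub G S) j x) ⊆ S := by
    intro v hv
    obtain ⟨j, hj, hv⟩ := mem_biUnion.1 hv
    rcases Nat.eq_zero_or_pos j with rfl | h0
    · rw [Lv_zero, mem_singleton] at hv
      rw [hv]
      exact hx
    · exact Lv_sub h0 hv
  refine le_trans ?_ (card_le_card h1)
  rw [card_biUnion]
  · calc 11 = ∑ j ∈ Icc 0 5, (if j = 0 then 1 else 2) := by decide
      _ ≤ _ := sum_le_sum fun j hj => by
        split_ifs with h0
        · rw [h0, Lv_zero, card_singleton]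
        · exact (h x hx).trans
            (levels h12 h hx j (by omega) (mem_Icc.1 hj).2)
  · intro i hi j hj hij
    have h2 := mem_Icc.1 (mem_coe.1 hi)
    have h3 := mem_Icc.1 (mem_coe.1 hj)
    exact Lv_disj (sub12 h12 S) hij (by omega)

/-- neighbours of vertices at distance at most three have distance at most four -/
theorem near {x u w : V} {j : ℕ} (hj : j ≤ 3) (hu : u ∈ Lv G j x) (h : G.Adj u w) :
    ∃ i ∈ Icc 0 4, w ∈ Lv G i x := by
  classical
  obtain ⟨p, hp, hl⟩ := mem_Lv.1 hu
  by_cases hw : w ∈ p.support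
  · have h5 := p.length_takeUntil_le_length hw
    exact ⟨(p.takeUntil w hw).length, mem_Icc.2 ⟨Nat.zero_le _, by omega⟩,
      mem_Lv.2 ⟨_, hp.takeUntil hw, rfl⟩⟩
  · refine ⟨j + 1, mem_Icc.2 ⟨Nat.zero_le _, by omega⟩, mem_Lv.2 ⟨p.concat h, hp.concat hw h, ?_⟩⟩
    rw [SimpleGraph.Walk.length_concat, hl]

theorem indep20 (h12 : ∀ (w : V) (c : G.Walk w w), c.IsCycle → 12 ≤ c.length) (S : Finset V)
    (hS : S.card = 20) : ∃ I ⊆ S, Ip G I ∧ 10 ≤ I.card := by
  classical
  by_cases hleaf : ∃ v ∈ S, (nb G S v).card ≤ 1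
  · obtain ⟨v, hv, h1⟩ := hleaf
    obtain ⟨S', hS', hlt, hle, hI⟩ := leaf hv h1
    obtain ⟨I, hIS, hIp, hIc⟩ := indep h12 S'.card S' rfl (by omega)
    obtain ⟨h2, h3⟩ := hI I hIS hIp
    refine ⟨insert v I, insert_subset hv (hIS.trans hS'), h3, ?_⟩
    rw [card_insert_of_notMem h2]
    omega
  push Not at hleaf
  have h2 : ∀ v ∈ S, 2 ≤ (nb G S v).card := fun v hv => by have := hleaf v hv; omega
  by_cases h3 : ∃ x ∈ S, 3 ≤ (nb G S x).card
  · obtain ⟨x, hx, h3⟩ := h3
    have hlv : ∀ j, 1 ≤ j → j ≤ 5 → 3 ≤ (Lv (sub G S) j x).card :=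
      fun j h5 h6 => h3.trans (levels h12 h2 hx j h5 h6)
    have hm : ∀ j, 1 ≤ j → j ≤ 4 → (Lv (sub G S) j x).card ≤ (Lv (sub G S) (j + 1) x).card :=
      fun j h5 h6 => Lv_mono (sub12 h12 S) (two_sub h2) h5 h6
    have hd : ∀ i j, i ≠ j → i ≤ 5 → j ≤ 5 → Disjoint (Lv (sub G S) i x) (Lv (sub G S) j x) :=
      fun i j h4 h5 h6 => Lv_disj (sub12 h12 S) h4 (by omega)
    by_cases h10 : 10 ≤ (Lv (sub G S) 1 x).card + (Lv (sub G S) 3 x).card +
        (Lv (sub G S) 5 x).card
    · refine ⟨Lv (sub G S) 1 x ∪ Lv (sub G S) 3 x ∪ Lv (sub G S) 5 x, ?_, ?_, ?_⟩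
      · intro v hv
        rw [mem_union, mem_union] at hv
        rcases hv with (hv | hv) | hv
        · exact Lv_sub (by norm_num) hv
        · exact Lv_sub (by norm_num) hv
        · exact Lv_sub (by norm_num) hv
      · have hj : ∀ v ∈ Lv (sub G S) 1 x ∪ Lv (sub G S) 3 x ∪ Lv (sub G S) 5 x,
            ∃ j, (j = 1 ∨ j = 3 ∨ j = 5) ∧ v ∈ Lv (sub G S) j x := by
          intro v hv
          rw [mem_union, mem_union] at hv
          rcases hv with (hv | hv) | hv
          · exact ⟨1, by omega, hv⟩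
          · exact ⟨3, by omega, hv⟩
          · exact ⟨5, by omega, hv⟩
        intro a ha b hb hab
        obtain ⟨i, hi, ha⟩ := hj a ha
        obtain ⟨j, hj, hb⟩ := hj b hb
        have h5 := Lv_adj (sub12 h12 S) (by omega : i ≤ 5) (by omega : j ≤ 5) ha hb
          ⟨hab, Lv_sub (by omega) ha, Lv_sub (by omega) hb⟩
        omega
      · rw [card_union_of_disjoint, card_union_of_disjoint]
        · exact h10
        · exact hd 1 3 (by norm_num) (by norm_num) (by norm_num)
        · rw [disjoint_union_left]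
          exact ⟨hd 1 5 (by norm_num) (by norm_num) (by norm_num),
            hd 3 5 (by norm_num) (by norm_num) (by norm_num)⟩
    · have a1 := hlv 1 (by norm_num) (by norm_num)
      have a3 := hlv 3 (by norm_num) (by norm_num)
      have a5 := hlv 5 (by norm_num) (by norm_num)
      have b1 := hm 1 (by norm_num) (by norm_num)
      have b2 := hm 2 (by norm_num) (by norm_num)
      have b3 := hm 3 (by norm_num) (by norm_num)
      have b4 := hm 4 (by norm_num) (by norm_num)
      norm_num at b1 b2 b3 b4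
      obtain ⟨R, hR⟩ : ∃ R, R = S \ (Icc 0 4).biUnion (fun j => Lv (sub G S) j x) := ⟨_, rfl⟩
      have hRS : R ⊆ S := by rw [hR]; exact sdiff_subset
      have hRc : 7 ≤ R.card := by
        have h5 : ((Icc 0 4).biUnion (fun j => Lv (sub G S) j x)).card ≤ 13 := by
          refine card_biUnion_le.trans ?_
          have h6 : ∑ j ∈ Icc 0 4, (Lv (sub G S) j x).card = (Lv (sub G S) 0 x).card +
              (Lv (sub G S) 1 x).card + (Lv (sub G S) 2 x).card + (Lv (sub G S) 3 x).card +
              (Lv (sub G S) 4 x).card := by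
            rw [show (Icc 0 4 : Finset ℕ) = {0, 1, 2, 3, 4} by decide]
            simp [sum_insert]
            ring
          rw [h6, Lv_zero, card_singleton]
          omega
        have h7 := le_card_sdiff ((Icc 0 4).biUnion (fun j => Lv (sub G S) j x)) S
        rw [← hR] at h7
        omega
      obtain ⟨R', hR', hR'c⟩ := exists_subset_card_eq hRc
      obtain ⟨I, hI1, hI2, hI3⟩ := forest (G := G) R'.card R' rfl (by
        intro C hC hne
        by_contra hcon
        push Not at hcon
        have h8 := ten h12 (S := C) (fun v hv => by have := hcon v hv; omega) hne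
        have h9 := card_le_card hC
        omega)
      have hIR : I ⊆ R := hI1.trans hR'
      have hfar : ∀ v ∈ I, ∀ j, j ≤ 3 → ∀ u ∈ Lv (sub G S) j x, u ∈ S → ¬ G.Adj u v := by
        intro v hv j hj u hu huS huv
        have hvR := hIR hv
        rw [hR, mem_sdiff] at hvR
        obtain ⟨i, hi, hvi⟩ := near hj hu (w := v) ⟨huv, huS, hvR.1⟩
        exact hvR.2 (mem_biUnion.2 ⟨i, hi, hvi⟩)
      have hnot : ∀ v ∈ I, ∀ j, j ≤ 4 → v ∉ Lv (sub G S) j x := by
        intro v hv j hj hvj
        have hvR := hIR hv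
        rw [hR, mem_sdiff] at hvR
        exact hvR.2 (mem_biUnion.2 ⟨j, mem_Icc.2 ⟨Nat.zero_le _, hj⟩, hvj⟩)
      refine ⟨Lv (sub G S) 1 x ∪ Lv (sub G S) 3 x ∪ I, ?_, ?_, ?_⟩
      · intro v hv
        rw [mem_union, mem_union] at hv
        rcases hv with (hv | hv) | hv
        · exact Lv_sub (by norm_num) hv
        · exact Lv_sub (by norm_num) hv
        · exact hRS (hIR hv)
      · have hj : ∀ v ∈ Lv (sub G S) 1 x ∪ Lv (sub G S) 3 x ∪ I,
            (∃ j, (j = 1 ∨ j = 3) ∧ v ∈ Lv (sub G S) j x) ∨ v ∈ I := by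
          intro v hv
          rw [mem_union, mem_union] at hv
          rcases hv with (hv | hv) | hv
          · exact Or.inl ⟨1, by omega, hv⟩
          · exact Or.inl ⟨3, by omega, hv⟩
          · exact Or.inr hv
        intro a ha b hb hab
        rcases hj a ha with ⟨i, hi, ha⟩ | ha <;> rcases hj b hb with ⟨j, hj, hb⟩ | hb
        · have h5 := Lv_adj (sub12 h12 S) (by omega : i ≤ 5) (by omega : j ≤ 5) ha hb
            ⟨hab, Lv_sub (by omega) ha, Lv_sub (by omega) hb⟩
          omega
        · exact hfar b hb i (by omega) a ha (Lv_sub (by omega) ha) hab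
        · exact hfar a ha j (by omega) b hb (Lv_sub (by omega) hb) hab.symm
        · exact hI2 a ha b hb hab
      · rw [card_union_of_disjoint, card_union_of_disjoint]
        · omega
        · exact hd 1 3 (by norm_num) (by norm_num) (by norm_num)
        · rw [disjoint_union_left, disjoint_right, disjoint_right]
          exact ⟨fun v hv => hnot v hv 1 (by norm_num), fun v hv => hnot v hv 3 (by norm_num)⟩
  push Not at h3
  have heq : ∀ v ∈ S, (nb G S v).card = 2 := by
    intro v hv
    have h4 := hleaf v hv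
    have h5 := h3 v hv
    omega
  obtain ⟨x, hx⟩ : S.Nonempty := card_pos.1 (by omega)
  obtain ⟨I, hI1, hI2, hI3⟩ := forest (G := G) (S.erase x).card (S.erase x) rfl (by
    intro C hC hCne
    by_contra hcon
    push Not at hcon
    have hCS : C ⊆ S := hC.trans (erase_subset _ _)
    -- the neighbours in `S` of a vertex in `C` are in `C`
    have hcl : ∀ v ∈ C, ∀ w ∈ S, G.Adj v w → w ∈ C := by
      intro v hv w hw hvw
      have h4 : nb G C v ⊆ nb G S v := by
        intro z hz
        rw [mem_nb] at hz ⊢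
        exact ⟨hCS hz.1, hz.2⟩
      have h5 := eq_of_subset_of_card_le h4 (by
        have h6 := hcon v hv
        have h7 := heq v (hCS hv)
        omega)
      have h8 : w ∈ nb G S v := mem_nb.2 ⟨hw, hvw⟩
      rw [← h5, mem_nb] at h8
      exact h8.1
    have h10 := eleven h12 (S := C) (fun v hv => by have := hcon v hv; omega) hCne
    have h11 := eleven h12 (S := S \ C) (fun v hv => by
      rw [mem_sdiff] at hv
      have h4 : nb G S v ⊆ nb G (S \ C) v := by
        intro z hz
        rw [mem_nb] at hz ⊢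
        refine ⟨mem_sdiff.2 ⟨hz.1, fun hzC => hv.2 (hcl z hzC v hv.1 hz.2.symm)⟩, hz.2⟩
      have h5 := card_le_card h4
      have h6 := heq v hv.1
      omega) ⟨x, mem_sdiff.2 ⟨hx, fun hxC => notMem_erase x S (hC hxC)⟩⟩
    have h12' := card_sdiff_add_card_eq_card hCS
    omega)
  refine ⟨I, hI1.trans (erase_subset _ _), hI2, ?_⟩
  rw [card_erase_of_mem hx] at hI3
  omega

end Pool.Agent.R129.Tia
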