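import Pool.Agent.R129.Tia.Cls
import Pool.Agent.R15.PW20
import Pool.Agent.R15.TW18
import Pool.Agent.R15.BW18

/-!
# Nowhere-zero 5-flows: branch, tree and path decompositions whose bags are not sparse

The classes of the graphs which have a branch, tree or path decomposition such that any `w + 1`
vertices of a middle set or of a bag include the vertices of a circuit with at most eleven edges
are closed under contractions.
-/

set_option autoImplicit false
set_option linter.unusedSectionVars false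

namespace Pool.Agent.R129.Tia

open Finset Pool.Agent.TH676.Z Pool.Agent.Y335.FL Pool.Agent.Y358.IN Pool.Agent.TH497.TW
open Pool.Agent.R15.BW18

variable {V E : Type} [Fintype V] [DecidableEq V] [Fintype E] [DecidableEq E]

/-- every subset of `B` without short circuits has at most `w` elements -/
def Spw (w : ℕ) (src dst : E → V) (B : Finset V) : Prop :=
  ∀ S ⊆ B, ¬ Sh src dst S → S.card ≤ w

theorem Spw.ctr {w : ℕ} {src dst : E → V} {B : Finset V} (h : Spw w src dst B) (u v : V) :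
    Spw w (ctr u v ∘ src) (ctr u v ∘ dst) (B.image (ctr u v)) := by
  intro S hS hG
  have hex : ∀ x, ∃ y, x ∈ S → y ∈ B ∧ Pool.Agent.TH676.Z.ctr u v y = x := by
    intro x
    by_cases hx : x ∈ S
    · obtain ⟨y, hy, hyx⟩ := mem_image.1 (hS hx)
      exact ⟨y, fun _ => ⟨hy, hyx⟩⟩
    · exact ⟨x, fun h => absurd h hx⟩
  choose σ hσ using hex
  have hinj : Set.InjOn σ S := by
    intro a ha b hb hab
    rw [← (hσ a ha).2, ← (hσ b hb).2, hab]
  have h1 := h (S.image σ) (by
    intro y hy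
    obtain ⟨x, hx, rfl⟩ := mem_image.1 hy
    exact (hσ x hx).1) (by
    rintro ⟨k, hk, w, ed, hw, hed, hA⟩
    have hmem : ∀ i, ∃ x ∈ S, σ x = w i := fun i => mem_image.1 (hA i).1
    choose x hx hxw using hmem
    refine hG ⟨k, hk, x, ed, ?_, hed, fun i => ⟨hx i, ?_⟩⟩
    · intro i j hij
      apply hw
      rw [← hxw i, ← hxw j, hij]
    · have h2 : x i = Pool.Agent.TH676.Z.ctr u v (w i) := by
        rw [← hxw i, (hσ _ (hx i)).2]
      have h3 : x (i + 1) = Pool.Agent.TH676.Z.ctr u v (w (i + 1)) := by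
        rw [← hxw (i + 1), (hσ _ (hx (i + 1))).2]
      rw [h2, h3]
      exact jn_ctr (hA i).2)
  rwa [card_image_of_injOn hinj] at h1

theorem Spw.subset {w : ℕ} {src dst : E → V} {B B' : Finset V} (h : Spw w src dst B)
    (hB : B' ⊆ B) : Spw w src dst B' := fun S hS => h S (hS.trans hB)

/-- in a minimal counterexample the bags are small -/
theorem Spw.card (hc : St_contract) {w : ℕ} {src dst : E → V} (hM : MinC src dst) {B : Finset V}
    (h : Spw w src dst B) : B.card ≤ w :=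
  h B (Subset.refl _) (fun ⟨k, hk, v, ed, hv, hed, hA⟩ =>
    no_circ hc hM k hk v ed hv hed fun i => (hA i).2)

/-! ## Tree decompositions -/

/-- a rooted tree decomposition whose bags satisfy `Spw` -/
def HasTw (w : ℕ) (src dst : E → V) : Prop :=
  ∃ (n : ℕ) (par : ℕ → ℕ) (B : ℕ → Finset V), (∀ i, 0 < i → i < n → par i < i) ∧
    (∀ e, ∃ i, i < n ∧ src e ∈ B i ∧ dst e ∈ B i) ∧
    (∀ i j v, j < i → i < n → v ∈ B i → v ∈ B j → v ∈ B (par i)) ∧
    ∀ i, i < n → Spw w src dst (B i)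

theorem ccTw (w : ℕ) : CC (V := V) (E := E) (HasTw w) := by
  intro src dst e h hne
  obtain ⟨n, par, B, h0, h1, h2, h4⟩ := h
  refine ⟨n, par, fun i => (B i).image (ctr (src e) (dst e)), h0, ?_, ?_,
    fun i hi => (h4 i hi).ctr _ _⟩
  · intro d
    obtain ⟨i, hin, hi1, hi2⟩ := h1 d
    exact ⟨i, hin, mem_image_of_mem _ hi1, mem_image_of_mem _ hi2⟩
  · have hm : ∀ i v, v ∈ (B i).image (ctr (src e) (dst e)) ↔
        (v ∈ B i ∧ v ≠ dst e) ∨ (v = src e ∧ dst e ∈ B i) := by
      intro i v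
      rw [mem_image]
      constructor
      · rintro ⟨y, hy, hyv⟩
        by_cases h : y = dst e
        · rw [h, ctr_v] at hyv
          exact Or.inr ⟨hyv.symm, h ▸ hy⟩
        · rw [ctr_of_ne h] at hyv
          exact Or.inl ⟨hyv ▸ hy, hyv ▸ h⟩
      · rintro (⟨h5, h6⟩ | ⟨h5, h6⟩)
        · exact ⟨v, h5, ctr_of_ne h6⟩
        · exact ⟨dst e, h6, by rw [ctr_v, h5]⟩
    intro i j v hji hi hvi hvj
    change v ∈ (B i).image (ctr (src e) (dst e)) at hvi
    change v ∈ (B j).image (ctr (src e) (dst e)) at hvj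
    change v ∈ (B (par i)).image (ctr (src e) (dst e))
    rw [hm] at hvi hvj ⊢
    obtain ⟨b, hbn, hb1, hb2⟩ := h1 e
    rcases hvi with ⟨h5, h6⟩ | ⟨h5, h6⟩ <;> rcases hvj with ⟨h7, h8⟩ | ⟨h7, h8⟩
    · exact Or.inl ⟨h2 i j v hji hi h5 h7, h6⟩
    · rw [h7] at h5
      rcases two_conn h0 h2 ⟨b, hbn, hb1, hb2⟩ hji hi h5 h8 with h | h
      · rw [h7]; exact Or.inl ⟨h, hne⟩
      · exact Or.inr ⟨h7, h⟩
    · rw [h5] at h7
      rcases two_conn h0 h2 ⟨b, hbn, hb2, hb1⟩ hji hi h6 h7 with h | h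
      · exact Or.inr ⟨h5, h⟩
      · rw [h5]; exact Or.inl ⟨h, hne⟩
    · exact Or.inr ⟨h5, h2 i j _ hji hi h6 h8⟩

theorem flow_of_HasTw (hc : St_contract) (hg : St_girth12) {src dst : E → V}
    (hcl : HasTw 19 src dst) (hbr : Br src dst ∅ ∅) : FlowOn src dst ∅ ∅ := by
  by_contra hn
  obtain ⟨s, d, hs, hM⟩ := exists_minC (ccTw 19) src dst hcl hbr hn
  have hTD : HasTD 19 s d := by
    obtain ⟨n, par, B, h0, h1, h2, h4⟩ := hs
    exact ⟨n, par, B, h0, h1, h2, fun i hi => (h4 i hi).card hc hM⟩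
  exact hM.nf (Pool.Agent.R15.TW18.flow_tw hg hTD hM.br)

/-- from the usual definition of tree decompositions -/
theorem HasTw.of_tree {w : ℕ} {ι : Type} [Fintype ι] {T : SimpleGraph ι} {C : ι → Finset V}
    {src dst : E → V} (hT : T.IsTree) (hC : PathCond T C)
    (he : ∀ e, ∃ i, src e ∈ C i ∧ dst e ∈ C i) (hw : ∀ i, Spw w src dst (C i)) :
    HasTw w src dst := by
  classical
  obtain ⟨m, hm⟩ : ∃ m, Fintype.card ι = m + 1 := by
    have := hT.connected.nonempty
    exact ⟨Fintype.card ι - 1, by have := Fintype.card_pos (α := ι); omega⟩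
  obtain ⟨num, par, h1, h2, h3, h4⟩ := numbering m ι T C hT hC hm
  have hsurj : ∀ a, a < m + 1 → ∃ i, num i = a := by
    intro a ha
    have hb : Function.Bijective (fun i => (⟨num i, h2 i⟩ : Fin (m + 1))) := by
      rw [Fintype.bijective_iff_injective_and_card]
      refine ⟨fun i j hij => h1 (by simpa using hij), by rw [hm, Fintype.card_fin]⟩
    obtain ⟨i, hi⟩ := hb.2 ⟨a, ha⟩
    exact ⟨i, by simpa using congrArg Fin.val hi⟩
  have := hT.connected.nonempty
  have hinv : ∀ i, Function.invFun num (num i) = i := Function.leftInverse_invFun h1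
  refine ⟨m + 1, par, fun a => C (Function.invFun num a), h3, ?_, ?_, fun a _ => hw _⟩
  · intro e
    obtain ⟨i, hi1, hi2⟩ := he e
    refine ⟨num i, h2 i, ?_⟩
    change src e ∈ C (Function.invFun num (num i)) ∧ dst e ∈ C (Function.invFun num (num i))
    rw [hinv i]
    exact ⟨hi1, hi2⟩
  · intro a b v hba ha hva hvb
    obtain ⟨i, rfl⟩ := hsurj a ha
    obtain ⟨j, rfl⟩ := hsurj b (by omega)
    change v ∈ C (Function.invFun num (num i)) at hva
    change v ∈ C (Function.invFun num (num j)) at hvb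
    change v ∈ C (Function.invFun num (par (num i)))
    rw [hinv] at hva hvb
    obtain ⟨k, hk, hk2⟩ := h4 i j v hba hva hvb
    rw [← hk, hinv]
    exact hk2

/-! ## Path decompositions -/

/-- a path decomposition whose bags satisfy `Spw` -/
def HasPw (w : ℕ) (src dst : E → V) : Prop :=
  ∃ X : ℕ → Finset V, (∀ e, ∃ i, src e ∈ X i ∧ dst e ∈ X i) ∧
    (∀ i j k, i ≤ j → j ≤ k → X i ∩ X k ⊆ X j) ∧ ∀ i, Spw w src dst (X i)

theorem ccPw (w : ℕ) : CC (V := V) (E := E) (HasPw w) := by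
  intro src dst e h hne
  obtain ⟨X, h1, h2, h4⟩ := h
  refine ⟨fun i => (X i).image (ctr (src e) (dst e)), ?_, ?_, fun i => (h4 i).ctr _ _⟩
  · intro d
    obtain ⟨i, hi1, hi2⟩ := h1 d
    exact ⟨i, mem_image_of_mem _ hi1, mem_image_of_mem _ hi2⟩
  · intro i j k hij hjk x hx
    rw [mem_inter, mem_image, mem_image] at hx
    obtain ⟨⟨y, hy, hyx⟩, ⟨z, hz, hzx⟩⟩ := hx
    rw [mem_image]
    by_cases hxu : x = src e
    · obtain ⟨b, hb1, hb2⟩ := h1 e
      have key : ∀ t, (∀ y, y ∈ X t → ctr (src e) (dst e) y = x →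
          y ∈ X t ∧ (y = src e ∨ y = dst e)) := by
        intro t y hy hyx
        refine ⟨hy, ?_⟩
        unfold ctr at hyx
        by_cases h : y = dst e
        · exact Or.inr h
        · rw [if_neg h] at hyx
          exact Or.inl (hyx.trans hxu)
      have hfin : ∀ y, (y = src e ∨ y = dst e) → ctr (src e) (dst e) y = x := by
        rintro y (rfl | rfl)
        · unfold ctr; rw [if_neg hne, hxu]
        · unfold ctr; rw [if_pos rfl, hxu]
      have hyb : ∀ y, (y = src e ∨ y = dst e) → y ∈ X b := by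
        rintro y (rfl | rfl)
        · exact hb1
        · exact hb2
      rcases le_total j b with hjb | hjb
      · obtain ⟨h5, h6⟩ := key i y hy hyx
        exact ⟨y, h2 i j b hij hjb (mem_inter.mpr ⟨h5, hyb y h6⟩), hfin y h6⟩
      · obtain ⟨h5, h6⟩ := key k z hz hzx
        exact ⟨z, h2 b j k hjb hjk (mem_inter.mpr ⟨hyb z h6, h5⟩), hfin z h6⟩
    · have hy' : y = x := by
        unfold ctr at hyx
        by_cases h : y = dst e
        · rw [if_pos h] at hyx; exact absurd hyx.symm hxu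
        · rw [if_neg h] at hyx; exact hyx
      have hz' : z = x := by
        unfold ctr at hzx
        by_cases h : z = dst e
        · rw [if_pos h] at hzx; exact absurd hzx.symm hxu
        · rw [if_neg h] at hzx; exact hzx
      refine ⟨x, h2 i j k hij hjk (mem_inter.mpr ⟨hy' ▸ hy, hz' ▸ hz⟩), ?_⟩
      rw [← hy']
      exact hyx.trans hy'.symm

theorem flow_of_HasPw (hc : St_contract) (hg : St_girth12) {src dst : E → V}
    (hcl : HasPw 21 src dst) (hbr : Br src dst ∅ ∅) : FlowOn src dst ∅ ∅ := by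
  by_contra hn
  obtain ⟨s, d, ⟨X, h1, h2, h4⟩, hM⟩ := exists_minC (ccPw 21) src dst hcl hbr hn
  exact hM.nf (Pool.Agent.R15.PW20.flow_pw hg ⟨X, h1, h2, fun i => (h4 i).card hc hM⟩ hM.br)

/-! ## Branch decompositions -/

/-- the middle sets of all subtrees satisfy `Spw` -/
def WidS (w : ℕ) (src dst : E → V) : ETree E → Prop
  | .leaf e => Spw w src dst (bdy src dst {e})
  | .node l r => Spw w src dst (bdy src dst (l.labels ∪ r.labels)) ∧ WidS w src dst l ∧
      WidS w src dst r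

/-- a branch decomposition whose middle sets satisfy `Spw` -/
def HasBw (w : ℕ) (src dst : E → V) : Prop :=
  ∃ T : ETree E, T.labels = univ ∧ WidS w src dst T

theorem bdy_ctr {src dst : E → V} {e : E} (hne : src e ≠ dst e) (F : Finset E) :
    bdy (ctr (src e) (dst e) ∘ src) (ctr (src e) (dst e) ∘ dst) F ⊆
      (bdy src dst F).image (ctr (src e) (dst e)) := by
  intro x hx
  rw [mem_image]
  rw [mem_bdy] at hx
  obtain ⟨⟨a, ha, ha1, ha2⟩, b, hb, hb1, hb2⟩ := hx
  -- the ends of `a` and `b` over `x`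
  have k : ∀ d, (ctr (src e) (dst e) ∘ src) d ≠ (ctr (src e) (dst e) ∘ dst) d →
      ((ctr (src e) (dst e) ∘ src) d = x ∨ (ctr (src e) (dst e) ∘ dst) d = x) →
      ∃ y, ctr (src e) (dst e) y = x ∧ src d ≠ dst d ∧ (src d = y ∨ dst d = y) := by
    intro d h1 h2
    have h3 : src d ≠ dst d := fun h => h1 (by simp [h])
    rcases h2 with h2 | h2
    · exact ⟨src d, h2, h3, Or.inl rfl⟩
    · exact ⟨dst d, h2, h3, Or.inr rfl⟩
  obtain ⟨y, hy, hya⟩ := k a ha1 ha2
  obtain ⟨z, hz, hzb⟩ := k b hb1 hb2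
  by_cases hyz : y = z
  · subst hyz
    exact ⟨y, mem_bdy.2 ⟨⟨a, ha, hya⟩, b, hb, hzb⟩, hy⟩
  · -- `y` and `z` are the ends of `e`
    have hyz' : ctr (src e) (dst e) y = ctr (src e) (dst e) z := hy.trans hz.symm
    have hends : (y = src e ∧ z = dst e) ∨ (y = dst e ∧ z = src e) := by
      unfold ctr at hyz'
      split_ifs at hyz' with h1 h2 h2
      · exact absurd (h1.trans h2.symm) hyz
      · exact Or.inr ⟨h1, hyz'.symm⟩
      · exact Or.inl ⟨hyz', h2⟩
      · exact absurd hyz' hyz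
    have hinc : (src e = y ∨ dst e = y) ∧ (src e = z ∨ dst e = z) := by
      rcases hends with ⟨h1, h2⟩ | ⟨h1, h2⟩
      · exact ⟨Or.inl h1.symm, Or.inr h2.symm⟩
      · exact ⟨Or.inr h1.symm, Or.inl h2.symm⟩
    by_cases he : e ∈ F
    · exact ⟨z, mem_bdy.2 ⟨⟨e, he, hne, hinc.2⟩, b, hb, hzb⟩, hz⟩
    · exact ⟨y, mem_bdy.2 ⟨⟨a, ha, hya⟩, e, he, hne, hinc.1⟩, hy⟩

theorem ccBw (w : ℕ) : CC (V := V) (E := E) (HasBw w) := by
  rintro src dst e ⟨T, h1, h2⟩ hne
  refine ⟨T, h1, ?_⟩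
  clear h1
  induction T with
  | leaf a => exact (Spw.ctr h2 _ _).subset (bdy_ctr hne _)
  | node l r ihl ihr => exact ⟨(Spw.ctr h2.1 _ _).subset (bdy_ctr hne _), ihl h2.2.1, ihr h2.2.2⟩

theorem flow_of_HasBw (hc : St_contract) (hg : St_girth12) {src dst : E → V}
    (hcl : HasBw 18 src dst) (hbr : Br src dst ∅ ∅) : FlowOn src dst ∅ ∅ := by
  by_contra hn
  obtain ⟨s, d, ⟨T, h1, h2⟩, hM⟩ := exists_minC (ccBw 18) src dst hcl hbr hn
  refine hM.nf (flow_bw hg ⟨T, h1, ?_⟩ hM.br)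
  clear h1
  induction T with
  | leaf a => exact Spw.card hc hM h2
  | node l r ihl ihr => exact ⟨Spw.card hc hM h2.1, ihl h2.2.1, ihr h2.2.2⟩

end Pool.Agent.R129.Tia
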